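import Pool.Agent.H16.T6.Main6

/-!
# Planar functions between abelian groups of order `p ^ r`, `r ≤ 6`
-/

set_option autoImplicit false

namespace Pool.Agent.Results.MP_460e77_co.OrdersUpToSix

/-- Let `p` be a prime and let `3 ≤ r ≤ 6`.  Let `H`, `K` be abelian groups of order `p ^ r`.  If
there is a planar function `f : H → K`, that is, `x ↦ f (h + x) - f x` is a bijection for every
`h ≠ 0`, then both `H` and `K` are elementary abelian. -/
theorem result (p : ℕ) (hp : p.Prime) (r : ℕ) (h3 : 3 ≤ r) (h6 : r ≤ 6)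
    {H K : Type*} [AddCommGroup H] [AddCommGroup K] (hH : Nat.card H = p ^ r)
    (hK : Nat.card K = p ^ r) (f : H → K)
    (hf : ∀ h : H, h ≠ 0 → Function.Bijective (fun x => f (h + x) - f x)) :
    Nonempty (H ≃+ (Fin r → ZMod p)) ∧ Nonempty (K ≃+ (Fin r → ZMod p)) := by
  have : Fact p.Prime := ⟨hp⟩
  exact Pool.Agent.H16.T6.small_orders6 h3 h6 hH hK f hf

end Pool.Agent.Results.MP_460e77_co.OrdersUpToSix
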