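import Pool.Agent.H38.RX.Main

/-!
# The rank of an abelian group carrying a planar function
-/

set_option autoImplicit false

namespace Pool.Agent.Results.MP_460e77_co.RankBoundOdd

/-- Let `p` be a prime, `r ≥ 1`, let `H`, `K` be abelian groups of order `p ^ r` and let
`f : H → K` be a planar function.  Let `R` be the rank of `H × K` (the number of cyclic factors),
that is, `H × K` has `p ^ R` elements `g` with `p g = 0`.  Then
`(3 p - 4) r + 2 ≤ 2 (p - 1) R`. -/
theorem result (p : ℕ) (hp : p.Prime) (r : ℕ) (hr : 1 ≤ r)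
    {H K : Type*} [AddCommGroup H] [AddCommGroup K] (hH : Nat.card H = p ^ r)
    (hK : Nat.card K = p ^ r) (f : H → K)
    (hf : ∀ h : H, h ≠ 0 → Function.Bijective (fun x => f (h + x) - f x))
    (R : ℕ) (hR : Nat.card {g : H × K // p • g = 0} = p ^ R) :
    (3 * p - 4) * r + 2 ≤ 2 * (p - 1) * R := by
  have : Fact p.Prime := ⟨hp⟩
  have h2 : p ≠ 2 := by
    rintro rfl
    have : Finite H := Nat.finite_of_card_ne_zero (by rw [hH]; exact (pow_pos two_pos r).ne')
    obtain ⟨h, hh⟩ := exists_prime_addOrderOf_dvd_card' (G := H) 2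
      (by rw [hH]; exact dvd_pow_self 2 (by omega))
    exact Pool.Agent.H88.Pl.no_planar_even f hf h (by
      intro h0
      rw [h0, addOrderOf_zero] at hh
      norm_num at hh) (by rw [← hh]; exact addOrderOf_nsmul_eq_zero h)
  exact Pool.Agent.H38.RX.rank_form_C h2 hH hK f hf hr hR

end Pool.Agent.Results.MP_460e77_co.RankBoundOdd
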