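import Pool.Agent.H88.EV.Strict
import Pool.Agent.H88.E7.Main

/-!
# Planar functions: strict rank bound, exponent bound and order `p ^ 7`, for `p ≥ r`
-/

set_option autoImplicit false

namespace Pool.Agent.Results.MP_460e77_co.StrictRankBound

/-- Let `p` be a prime, `3 ≤ r ≤ p`, and let `H`, `K` be abelian groups of order `p ^ r` with a
planar function `f : H → K`.  Let `G = H × K`.  Then `p G` has fewer than `p ^ ⌊r / 2⌋` elements,
and the exponent of `G` divides `p ^ (1 + ⌊(r - 2) / 6⌋)`.  If `r = 7`, both groups are isomorphic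
to `(Z / p) ^ 7`. -/
theorem result (p : ℕ) (hp : p.Prime) (r : ℕ) (hr : 3 ≤ r) (hpr : r ≤ p)
    {H K : Type*} [AddCommGroup H] [AddCommGroup K] (hH : Nat.card H = p ^ r)
    (hK : Nat.card K = p ^ r) (f : H → K)
    (hf : ∀ h : H, h ≠ 0 → Function.Bijective (fun x => f (h + x) - f x)) :
    Nat.card (Set.range fun g : H × K => p • g) < p ^ (r / 2) ∧
      AddMonoid.exponent (H × K) ∣ p ^ (1 + (r - 2) / 6) ∧
      (r = 7 → Nonempty (H ≃+ (Fin 7 → ZMod p)) ∧ Nonempty (K ≃+ (Fin 7 → ZMod p))) := by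
  have : Fact p.Prime := ⟨hp⟩
  exact ⟨Pool.Agent.H77.EV.strict hr hpr hH hK f hf,
    Pool.Agent.H88.EV.exponent_dvd hr hpr hH hK f hf, fun h7 => by
      subst h7
      exact Pool.Agent.H88.E7.seven hpr hH hK f hf⟩

end Pool.Agent.Results.MP_460e77_co.StrictRankBound
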