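import Pool.Agent.H38.PL3.Main3

/-!
# Planar functions: the largest cyclic factor occurs at least three times
-/

set_option autoImplicit false

namespace Pool.Agent.Results.MP_460e77_co.ThreeLargest

/-- Let `p` be a prime and `r ≥ 3`, let `H`, `K` be abelian groups of order `p ^ r` and let
`f : H → K` be a planar function.  If the group `G = H × K` has exponent `p ^ e` with `e ≥ 2`, then
the subgroup `p ^ (e - 1) G` has at least `p ^ 3` elements, that is, `G` has at least three cyclic
factors of order `p ^ e`. -/
theorem result (p : ℕ) (hp : p.Prime) (r e : ℕ) (hr : 3 ≤ r) (he : 2 ≤ e)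
    {H K : Type*} [AddCommGroup H] [AddCommGroup K] (hH : Nat.card H = p ^ r)
    (hK : Nat.card K = p ^ r) (f : H → K)
    (hf : ∀ h : H, h ≠ 0 → Function.Bijective (fun x => f (h + x) - f x))
    (hexp : AddMonoid.exponent (H × K) = p ^ e) :
    p ^ 3 ≤ Nat.card (Set.range fun g : H × K => p ^ (e - 1) • g) := by
  have : Fact p.Prime := ⟨hp⟩
  exact Pool.Agent.H38.PL3.main_C hr he hH hK f hf hexp

end Pool.Agent.Results.MP_460e77_co.ThreeLargest
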